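import Pool.Agent.TH852.SP.Stmts
import Pool.Agent.H932R5.Homog

set_option autoImplicit false

/-!
The local ring of a smooth point of a surface in affine space: `dim = s (s + 1) / 2` for the
quotient by the `s`-th power of the maximal ideal (piece S_LOC of helper852's project SP).
-/

namespace Pool.Agent.TH374.VSL

open MvPolynomial Pool.Agent.W607 Pool.Agent.H932R5 Pool.Agent.TH852.SP

/-! ### coefficients of low degree -/

/-- the coefficients of degree less than `s` -/
noncomputable def cf (s : ℕ) : R3 →ₗ[ℂ] ({α // α ∈ dg 2 s} → ℂ) where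
  toFun f α := coeff α.1 f
  map_add' f g := by ext α; exact coeff_add _ _ _
  map_smul' c f := by ext α; exact coeff_smul _ _ _

theorem cf_surj (s : ℕ) : Function.Surjective (cf s) := by
  classical
  intro v
  refine ⟨∑ α : {α // α ∈ dg 2 s}, monomial α.1 (v α), ?_⟩
  ext β
  show coeff β.1 (∑ α : {α // α ∈ dg 2 s}, monomial α.1 (v α)) = v β
  rw [coeff_sum]
  simp only [coeff_monomial]
  rw [Finset.sum_eq_single β]
  · rw [if_pos rfl]
  · intro α _ hα
    rw [if_neg (fun h => hα (Subtype.ext h))]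
  · intro h
    exact absurd (Finset.mem_univ _) h

theorem cf_eq_zero {s : ℕ} {f : R3} : cf s f = 0 ↔ f ∈ (idealOfVars (Fin 3) ℂ) ^ s := by
  rw [mem_pow_idealOfVars_iff']
  constructor
  · intro h x hx
    exact congrFun h ⟨x, mem_dg.2 hx⟩
  · intro h
    ext α
    exact h α.1 (mem_dg.1 α.2)

theorem order_iff {n : ℕ} {f : R3} :
    (∀ x, Finsupp.degree x < n → coeff x f = 0) ↔ (n : ℕ∞) ≤ (f : MvPowerSeries (Fin 3) ℂ).order := by
  constructor
  · intro h
    refine MvPowerSeries.nat_le_order fun d hd => ?_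
    rw [coeff_coe]
    exact h d hd
  · intro h x hx
    rw [← coeff_coe]
    refine MvPowerSeries.coeff_of_lt_order (lt_of_lt_of_le ?_ h)
    exact_mod_cast hx

theorem order_one {f : R3} (h0 : coeff 0 f = 0) (h1 : ∃ j, coeff (Finsupp.single j 1) f ≠ 0) :
    (f : MvPowerSeries (Fin 3) ℂ).order = 1 := by
  obtain ⟨j, hj⟩ := h1
  apply le_antisymm
  · have h2 : MvPowerSeries.coeff (Finsupp.single j 1) (f : MvPowerSeries (Fin 3) ℂ) ≠ 0 := by
      rw [coeff_coe]
      exact hj
    have h3 := MvPowerSeries.order_le h2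
    simpa using h3
  · have h2 : ((1 : ℕ) : ℕ∞) ≤ (f : MvPowerSeries (Fin 3) ℂ).order := by
      rw [← order_iff]
      intro x hx
      have h3 : Finsupp.degree x = 0 := by omega
      rw [Finsupp.degree_eq_zero_iff] at h3
      rw [h3]
      exact h0
    exact_mod_cast h2

/-- multiplication by `f`, followed by the coefficients of degree less than `s` -/
noncomputable def mf (f : R3) (s : ℕ) : R3 →ₗ[ℂ] ({α // α ∈ dg 2 s} → ℂ) :=
  (cf s).comp (LinearMap.mulLeft ℂ f)

theorem mf_apply (f : R3) (s : ℕ) (g : R3) : mf f s g = cf s (f * g) := rfl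

theorem ker_mf {f : R3} (hf : (f : MvPowerSeries (Fin 3) ℂ).order = 1) (s : ℕ) :
    LinearMap.ker (mf f s) = LinearMap.ker (cf (s - 1)) := by
  ext g
  rw [LinearMap.mem_ker, LinearMap.mem_ker, mf_apply, cf_eq_zero, cf_eq_zero,
    mem_pow_idealOfVars_iff', mem_pow_idealOfVars_iff', order_iff, order_iff, coe_mul,
    MvPowerSeries.order_mul, hf]
  cases s with
  | zero => simp
  | succ t =>
    rw [Nat.add_sub_cancel, Nat.cast_add, Nat.cast_one, add_comm]
    exact ENat.add_le_add_iff_left ENat.one_ne_top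

theorem equiv_of_ker {M V W : Type*} [AddCommGroup M] [Module ℂ M] [AddCommGroup V] [Module ℂ V]
    [AddCommGroup W] [Module ℂ W] (f : M →ₗ[ℂ] V) (g : M →ₗ[ℂ] W) (hf : Function.Surjective f)
    (hg : Function.Surjective g) (h : LinearMap.ker f = LinearMap.ker g) :
    Nonempty (V ≃ₗ[ℂ] W) :=
  ⟨(f.quotKerEquivOfSurjective hf).symm.trans
    ((Submodule.quotEquivOfEq _ _ h).trans (g.quotKerEquivOfSurjective hg))⟩

theorem finrank_range {f : R3} (hf : (f : MvPowerSeries (Fin 3) ℂ).order = 1) (s : ℕ) :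
    Module.finrank ℂ (LinearMap.range (mf f s)) = (s - 1 + 2).choose 3 := by
  obtain ⟨e⟩ := equiv_of_ker (mf f s).rangeRestrict (cf (s - 1))
    (LinearMap.surjective_rangeRestrict _) (cf_surj _)
    (by rw [LinearMap.ker_rangeRestrict, ker_mf hf])
  rw [e.finrank_eq, Module.finrank_fintype_fun_eq_card, Fintype.card_coe, card_dg]

theorem finrank_quot {f : R3} (hf : (f : MvPowerSeries (Fin 3) ℂ).order = 1) (s : ℕ) :
    2 * Module.finrank ℂ (({α // α ∈ dg 2 s} → ℂ) ⧸ LinearMap.range (mf f s)) = s * (s + 1) := by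
  have h1 := Submodule.finrank_quotient_add_finrank (LinearMap.range (mf f s))
  rw [finrank_range hf, Module.finrank_fintype_fun_eq_card, Fintype.card_coe, card_dg] at h1
  cases s with
  | zero =>
    have h2 : (0 + 2).choose (2 + 1) = 0 := rfl
    rw [h2] at h1
    omega
  | succ t =>
    have h2 : t + 1 - 1 + 2 = t + 2 := by omega
    have h3 : t + 1 + 2 = t + 2 + 1 := by omega
    rw [h2, h3, Nat.choose_succ_succ' (t + 2) 2] at h1
    have h4 : (t + 2).choose 2 * 2 = (t + 2) * (t + 1) := by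
      rw [Nat.choose_two_right]
      have h5 : 2 ∣ (t + 2) * (t + 2 - 1) := (Nat.even_mul_pred_self (t + 2)).two_dvd
      rw [Nat.div_mul_cancel h5]
      rfl
    have h7 : (t + 2).choose (2 + 1) = (t + 2).choose 3 := rfl
    rw [h7] at h1
    have h6 : Module.finrank ℂ
        (({α // α ∈ dg 2 (t + 1)} → ℂ) ⧸ LinearMap.range (mf f (t + 1))) = (t + 2).choose 2 := by
      omega
    rw [h6, mul_comm, h4]
    ring

/-! ### elimination of one variable -/

/-- `X 0 ↦ 1`, translation of `w` to the origin -/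
noncomputable def th (w : Fin (3 + 1) → ℂ) : R4 →ₐ[ℂ] R3 :=
  aeval (Fin.cons 1 (fun i : Fin 3 => X i + C (w i.succ)))

noncomputable def sg (w : Fin (3 + 1) → ℂ) : R3 →ₐ[ℂ] R4 :=
  aeval (fun i : Fin 3 => X i.succ - C (w i.succ))

theorem th_zero (w : Fin (3 + 1) → ℂ) : th w (X 0) = 1 := by
  simp [th]

theorem th_succ (w : Fin (3 + 1) → ℂ) (i : Fin 3) : th w (X i.succ) = X i + C (w i.succ) := by
  simp [th]

theorem th_C (w : Fin (3 + 1) → ℂ) (a : ℂ) : th w (C a) = C a := (th w).commutes a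

theorem sg_X (w : Fin (3 + 1) → ℂ) (i : Fin 3) : sg w (X i) = X i.succ - C (w i.succ) := by
  simp [sg]

theorem sg_C (w : Fin (3 + 1) → ℂ) (a : ℂ) : sg w (C a) = C a := (sg w).commutes a

theorem th_sg (w : Fin (3 + 1) → ℂ) (g : R3) : th w (sg w g) = g := by
  have h : (th w).comp (sg w) = AlgHom.id ℂ _ := by
    refine MvPolynomial.algHom_ext fun i => ?_
    rw [AlgHom.comp_apply, sg_X, map_sub, th_succ, th_C, AlgHom.id_apply]
    ring
  exact AlgHom.congr_fun h g

theorem sub_sg_th (w : Fin (3 + 1) → ℂ) (x : R4) :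
    x - sg w (th w x) ∈ Ideal.span {(X 0 - 1 : R4)} := by
  have h : (Ideal.Quotient.mkₐ ℂ (Ideal.span {(X 0 - 1 : R4)})) =
      (Ideal.Quotient.mkₐ ℂ (Ideal.span {(X 0 - 1 : R4)})).comp ((sg w).comp (th w)) := by
    refine MvPolynomial.algHom_ext fun i => ?_
    rw [AlgHom.comp_apply, AlgHom.comp_apply]
    refine Fin.cases ?_ (fun j => ?_) i
    · rw [th_zero, map_one]
      exact Ideal.Quotient.eq.2 (Ideal.subset_span rfl)
    · rw [th_succ, map_add, sg_X, sg_C, sub_add_cancel]
  exact Ideal.Quotient.eq.1 (AlgHom.congr_fun h x)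

theorem coeff_zero_th {w : Fin (3 + 1) → ℂ} (hw : w 0 = 1) (F : R4) :
    coeff 0 (th w F) = eval w F := by
  have h : (constantCoeff : R3 →+* ℂ).comp (th w : R4 →+* R3) = eval w := by
    refine MvPolynomial.ringHom_ext (fun a => ?_) fun i => ?_
    · rw [RingHom.comp_apply, AlgHom.coe_toRingHom, th_C, eval_C, constantCoeff_C]
    · rw [RingHom.comp_apply, AlgHom.coe_toRingHom, eval_X]
      refine Fin.cases ?_ (fun j => ?_) i
      · rw [th_zero, map_one, hw]
      · rw [th_succ, map_add, constantCoeff_X, constantCoeff_C, zero_add]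
  exact RingHom.congr_fun h F

theorem coeff_single_th {w : Fin (3 + 1) → ℂ} (hw : w 0 = 1) (j : Fin 3) (F : R4) :
    coeff (Finsupp.single j 1) (th w F) = eval w (pderiv j.succ F) := by
  classical
  induction F using MvPolynomial.induction_on with
  | C a =>
    rw [th_C, pderiv_C, map_zero, coeff_C, if_neg]
    intro h
    have := DFunLike.congr_fun h j
    simp at this
  | add p q hp hq => rw [map_add, coeff_add, hp, hq, map_add, map_add]
  | mul_X p i hp =>
    rw [map_mul, pderiv_mul, map_add, map_mul, map_mul, eval_X]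
    refine Fin.cases ?_ (fun k => ?_) i
    · rw [th_zero, mul_one, hp, hw, mul_one, pderiv_X_of_ne (Fin.succ_ne_zero j).symm, map_zero,
        mul_zero, add_zero]
    · rw [th_succ, mul_add, coeff_add, mul_comm _ (C (w k.succ)), coeff_C_mul, hp, coeff_mul_X',
        add_comm, mul_comm (w k.succ)]
      congr 1
      by_cases hk : k = j
      · subst hk
        rw [if_pos (by simp), tsub_self, coeff_zero_th hw, pderiv_X_self, map_one, mul_one]
      · rw [if_neg (by simpa [Finsupp.mem_support_iff, Finsupp.single_apply] using hk),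
          pderiv_X_of_ne (fun h => hk (Fin.succ_injective _ h)), map_zero, mul_zero]

theorem th_mw {w : Fin (3 + 1) → ℂ} (hw : w 0 = 1) :
    Ideal.map (th w) (mw w) ≤ idealOfVars (Fin 3) ℂ := by
  unfold mw
  rw [Ideal.map_span, Ideal.span_le]
  rintro _ ⟨_, ⟨i, rfl⟩, rfl⟩
  refine Fin.cases ?_ (fun k => ?_) i
  · rw [map_sub, th_zero, th_C, hw, C_1, sub_self]
    exact Ideal.zero_mem _
  · rw [map_sub, th_succ, th_C, add_sub_cancel_right]
    exact Ideal.subset_span ⟨k, rfl⟩

theorem sg_mw (w : Fin (3 + 1) → ℂ) :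
    Ideal.map (sg w) (idealOfVars (Fin 3) ℂ) ≤ mw w := by
  have hI : idealOfVars (Fin 3) ℂ = Ideal.span (Set.range X) := rfl
  rw [hI, Ideal.map_span, Ideal.span_le]
  rintro _ ⟨_, ⟨i, rfl⟩, rfl⟩
  rw [sg_X]
  exact Ideal.subset_span ⟨i.succ, rfl⟩

theorem mem_JJ_iff {w : Fin (3 + 1) → ℂ} (hw : w 0 = 1) (F : R4) (s : ℕ) (x : R4) :
    x ∈ JJ F w s ↔ ∃ g : R3, th w x - th w F * g ∈ (idealOfVars (Fin 3) ℂ) ^ s := by
  constructor
  · intro h
    have h1 : JJ F w s ≤ Ideal.comap (th w)
        (Ideal.span {th w F} ⊔ (idealOfVars (Fin 3) ℂ) ^ s) := by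
      unfold JJ
      refine sup_le (sup_le ?_ ?_) ?_
      · rw [Ideal.span_singleton_le_iff_mem, Ideal.mem_comap]
        exact (le_sup_left : Ideal.span {th w F} ≤ _) (Ideal.subset_span rfl)
      · rw [Ideal.span_singleton_le_iff_mem, Ideal.mem_comap, map_sub, th_zero, map_one, sub_self]
        exact Ideal.zero_mem _
      · rw [← Ideal.map_le_iff_le_comap, Ideal.map_pow]
        exact (Ideal.pow_right_mono (th_mw hw) s).trans le_sup_right
    have h2 : th w x ∈ Ideal.span {th w F} ⊔ (idealOfVars (Fin 3) ℂ) ^ s := h1 h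
    rw [Ideal.mem_span_singleton_sup] at h2
    obtain ⟨a, b, hb, hab⟩ := h2
    refine ⟨a, ?_⟩
    rw [← hab, mul_comm (th w F) a, add_sub_cancel_left]
    exact hb
  · rintro ⟨g, hg⟩
    have h1 : sg w (th w x - th w F * g) ∈ (mw w) ^ s := by
      have h2 := Ideal.mem_map_of_mem (sg w) hg
      rw [Ideal.map_pow] at h2
      exact Ideal.pow_right_mono (sg_mw w) s h2
    rw [map_sub, map_mul] at h1
    have h3 := sub_sg_th w x
    have h4 := sub_sg_th w F
    have h5 : x = F * sg w g + ((x - sg w (th w x)) - (F - sg w (th w F)) * sg w g) +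
        (sg w (th w x) - sg w (th w F) * sg w g) := by ring
    rw [h5]
    unfold JJ
    refine Submodule.add_mem_sup (Submodule.add_mem_sup ?_ ?_) h1
    · exact Ideal.mul_mem_right _ _ (Ideal.subset_span rfl)
    · exact Ideal.sub_mem _ h3 (Ideal.mul_mem_right _ _ h4)

/-- (LOC) the local ring at a smooth point of the surface. -/
theorem t_LOC : S_LOC := by
  intro F w hw hF hi s
  have hord : (th w F : MvPowerSeries (Fin 3) ℂ).order = 1 := by
    refine order_one ((coeff_zero_th hw F).trans hF) ?_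
    obtain ⟨i, hi0, hi1⟩ := hi
    obtain ⟨j, rfl⟩ := Fin.exists_succ_eq.2 hi0
    refine ⟨j, ?_⟩
    rw [coeff_single_th hw]
    exact hi1
  let W := LinearMap.range (mf (th w F) s)
  let φ : R4 →ₗ[ℂ] (({α // α ∈ dg 2 s} → ℂ) ⧸ W) := W.mkQ.comp ((cf s).comp (th w).toLinearMap)
  have hφ : Function.Surjective φ := by
    intro y
    obtain ⟨v, rfl⟩ := W.mkQ_surjective y
    obtain ⟨g, rfl⟩ := cf_surj s v
    refine ⟨sg w g, ?_⟩
    show W.mkQ (cf s (th w (sg w g))) = W.mkQ (cf s g)
    rw [th_sg]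
  have hker : LinearMap.ker (Ideal.Quotient.mkₐ ℂ (JJ F w s)).toLinearMap = LinearMap.ker φ := by
    ext x
    rw [LinearMap.mem_ker, LinearMap.mem_ker]
    have h1 : (Ideal.Quotient.mkₐ ℂ (JJ F w s)).toLinearMap x = 0 ↔ x ∈ JJ F w s :=
      Ideal.Quotient.eq_zero_iff_mem
    have h2 : φ x = 0 ↔ cf s (th w x) ∈ W := Submodule.Quotient.mk_eq_zero W
    rw [h1, h2, mem_JJ_iff hw]
    constructor
    · rintro ⟨g, hg⟩
      refine ⟨g, ?_⟩
      rw [mf_apply]
      have h3 := cf_eq_zero.2 hg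
      rw [map_sub, sub_eq_zero] at h3
      exact h3.symm
    · rintro ⟨g, hg⟩
      refine ⟨g, ?_⟩
      rw [← cf_eq_zero, map_sub, sub_eq_zero]
      rw [mf_apply] at hg
      exact hg.symm
  obtain ⟨e⟩ := equiv_of_ker _ φ (Ideal.Quotient.mkₐ_surjective ℂ (JJ F w s)) hφ hker
  refine ⟨Module.Finite.equiv e.symm, ?_⟩
  rw [e.finrank_eq]
  exact finrank_quot hord s

end Pool.Agent.TH374.VSL
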